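import Pool.Agent.Y122.TQ.Fam1
import Pool.Agent.Y122.TQ.Defs2

/-! # Project TQ, SM: second moment over the characters, upper bound -/

set_option autoImplicit false

namespace Pool.Agent.Y813.TQ

open Finset Filter Topology MeasureTheory
open Pool.Agent.H306R2.RG
open Pool.Agent.Y122.TQ

noncomputable section

/-- the part of the sum controlled by `ZZ` -/
theorem om_bd (φ : FD) (hφ : Fam φ) (C : ℝ) (E : ℕ) (hC : 1 ≤ C)
    (h : ∀ N Y : ℕ, 1 ≤ N → 3 ≤ Y → N ^ 16 ≤ Y → ∀ δ : ℝ, 1 / Real.log Y ≤ δ → δ ≤ 1 / 4 →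
      ∑ d ∈ Om φ Y, ((1 - φ.η * (2 : ℝ) ^ (-(1 / 2 + δ))) * LLg φ d (1 / 2 + δ) -
          Qo φ (fun _ => 1) N δ d) ^ 2 ≤
        C * Real.log Y ^ E * ((Y : ℝ) * (N : ℝ) ^ (-δ) + (Y : ℝ) ^ (3 / 4 : ℝ) * (N : ℝ) ^ E))
    (Y : ℕ) (hY : 3 ≤ Y) (δ : ℝ) (h1 : 1 / Real.log Y ≤ δ) (h2 : δ ≤ 1 / 4) :
    ∑ d ∈ Om φ Y, LLg φ d (1 / 2 + δ) ^ 2 ≤ 96 * C * Y * Real.log Y ^ E := by
  have hY3 : (3 : ℝ) ≤ Y := by exact_mod_cast hY
  have hlog : 1 ≤ Real.log Y := by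
    rw [Real.le_log_iff_exp_le (by linarith)]
    have := Real.exp_one_lt_d9
    linarith
  have hδ : 0 < δ := lt_of_lt_of_le (by positivity) h1
  have hlE : 1 ≤ Real.log Y ^ E := one_le_pow₀ hlog
  have h3 := h 1 Y le_rfl hY (by rw [one_pow]; omega) δ h1 h2
  have hQ : ∀ d : ℕ, Qo φ (fun _ => 1) 1 δ d = 1 := by
    intro d
    unfold Qo
    rw [Icc_self, sum_singleton, jo_one, Nat.cast_one, Real.one_rpow]
    ring
  simp only [hQ, Nat.cast_one, Real.one_rpow, one_pow, mul_one] at h3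
  obtain ⟨u1, u2⟩ := uu_bd hφ hδ
  unfold uu at u1 u2
  set u := 1 - φ.η * (2 : ℝ) ^ (-(1 / 2 + δ)) with hu
  have h34 : (Y : ℝ) ^ (3 / 4 : ℝ) ≤ Y := by
    calc (Y : ℝ) ^ (3 / 4 : ℝ) ≤ (Y : ℝ) ^ (1 : ℝ) :=
          Real.rpow_le_rpow_of_exponent_le (by linarith) (by norm_num)
      _ = Y := Real.rpow_one _
  have h4 : ∑ d ∈ Om φ Y, LLg φ d (1 / 2 + δ) ^ 2 ≤
      ∑ d ∈ Om φ Y, (32 * (u * LLg φ d (1 / 2 + δ) - 1) ^ 2 + 32) := by
    apply sum_le_sum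
    intro d _
    set x := LLg φ d (1 / 2 + δ)
    have e1 : x ^ 2 ≤ 16 * (u * x) ^ 2 := by
      have : 1 / 16 ≤ u ^ 2 := by nlinarith
      rw [mul_pow]
      nlinarith [sq_nonneg x]
    have e2 : (u * x) ^ 2 ≤ 2 * (u * x - 1) ^ 2 + 2 := by nlinarith [sq_nonneg (u * x - 2)]
    linarith
  have hcard : ((Om φ Y).card : ℝ) ≤ Y := by
    have : (Om φ Y).card ≤ Y := by
      calc (Om φ Y).card ≤ (Icc 1 Y).card := by classical exact card_filter_le _ _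
        _ = Y := by simp
    exact_mod_cast this
  rw [sum_add_distrib, ← mul_sum, sum_const, nsmul_eq_mul] at h4
  have h5 : C * Real.log Y ^ E * ((Y : ℝ) + (Y : ℝ) ^ (3 / 4 : ℝ)) ≤
      C * Real.log Y ^ E * (2 * Y) :=
    mul_le_mul_of_nonneg_left (by linarith) (by positivity)
  have h6 : (Y : ℝ) ≤ C * Real.log Y ^ E * Y := by
    have : 1 ≤ C * Real.log Y ^ E := one_le_mul_of_one_le_of_one_le hC hlE
    nlinarith
  calc _ ≤ _ := h4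
    _ ≤ 32 * (C * Real.log Y ^ E * (2 * Y)) + 32 * (C * Real.log Y ^ E * Y) := by linarith
    _ = 96 * C * Y * Real.log Y ^ E := by ring

/-- the small members -/
theorem small_bd (φ : FD) (C : ℝ) (hC : 0 < C)
    (h : ∀ d : ℕ, φ.A d → Squarefree d → ∀ δ : ℝ,
      0 < δ → δ ≤ 1 / 4 → |LLg φ d (1 / 2 + δ)| ≤ C * (d : ℝ) ^ (3 / 8 : ℝ))
    (T : ℕ) (δ : ℝ) (h1 : 0 < δ) (h2 : δ ≤ 1 / 4) (S : Finset ℕ)
    (hS : ∀ d ∈ S, 1 ≤ d ∧ φ.A d ∧ Squarefree d ∧ d ^ 4 < T ^ 3) :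
    ∑ d ∈ S, LLg φ d (1 / 2 + δ) ^ 2 ≤ C ^ 2 * (T : ℝ) ^ (21 / 16 : ℝ) := by
  have hd : ∀ d ∈ S, (d : ℝ) ≤ (T : ℝ) ^ (3 / 4 : ℝ) := by
    intro d hd
    have h3 : ((d : ℝ)) ^ 4 ≤ (T : ℝ) ^ 3 := by exact_mod_cast (hS d hd).2.2.2.le
    calc (d : ℝ) = ((d : ℝ) ^ 4) ^ (1 / 4 : ℝ) := by
          rw [← Real.rpow_natCast, ← Real.rpow_mul (by positivity)]
          norm_num
      _ ≤ ((T : ℝ) ^ 3) ^ (1 / 4 : ℝ) := Real.rpow_le_rpow (by positivity) h3 (by norm_num)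
      _ = (T : ℝ) ^ (3 / 4 : ℝ) := by
          rw [← Real.rpow_natCast, ← Real.rpow_mul (by positivity)]
          norm_num
  have hcard : (S.card : ℝ) ≤ (T : ℝ) ^ (3 / 4 : ℝ) := by
    have h3 : S ⊆ Icc 1 ⌊(T : ℝ) ^ (3 / 4 : ℝ)⌋₊ := by
      intro d hdS
      rw [mem_Icc]
      exact ⟨(hS d hdS).1, Nat.le_floor (hd d hdS)⟩
    have h4 := card_le_card h3
    rw [Nat.card_Icc, Nat.add_sub_cancel] at h4
    calc (S.card : ℝ) ≤ (⌊(T : ℝ) ^ (3 / 4 : ℝ)⌋₊ : ℝ) := by exact_mod_cast h4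
      _ ≤ _ := Nat.floor_le (by positivity)
  have h5 : ∀ d ∈ S, LLg φ d (1 / 2 + δ) ^ 2 ≤ C ^ 2 * (T : ℝ) ^ (9 / 16 : ℝ) := by
    intro d hdS
    obtain ⟨_, ha, hsq, _⟩ := hS d hdS
    have h6 := h d ha hsq δ h1 h2
    calc LLg φ d (1 / 2 + δ) ^ 2 = |LLg φ d (1 / 2 + δ)| ^ 2 := (sq_abs _).symm
      _ ≤ (C * (d : ℝ) ^ (3 / 8 : ℝ)) ^ 2 := pow_le_pow_left₀ (abs_nonneg _) h6 2
      _ = C ^ 2 * (d : ℝ) ^ (3 / 4 : ℝ) := by
          rw [mul_pow, ← Real.rpow_natCast ((d : ℝ) ^ (3 / 8 : ℝ)), ← Real.rpow_mul (by positivity)]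
          norm_num
      _ ≤ C ^ 2 * ((T : ℝ) ^ (3 / 4 : ℝ)) ^ (3 / 4 : ℝ) :=
          mul_le_mul_of_nonneg_left (Real.rpow_le_rpow (by positivity) (hd d hdS) (by norm_num))
            (by positivity)
      _ = C ^ 2 * (T : ℝ) ^ (9 / 16 : ℝ) := by
          rw [← Real.rpow_mul (by positivity)]
          norm_num
  calc ∑ d ∈ S, LLg φ d (1 / 2 + δ) ^ 2 ≤ ∑ _d ∈ S, C ^ 2 * (T : ℝ) ^ (9 / 16 : ℝ) :=
        sum_le_sum h5
    _ = S.card * (C ^ 2 * (T : ℝ) ^ (9 / 16 : ℝ)) := by rw [sum_const, nsmul_eq_mul]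
    _ ≤ (T : ℝ) ^ (3 / 4 : ℝ) * (C ^ 2 * (T : ℝ) ^ (9 / 16 : ℝ)) :=
        mul_le_mul_of_nonneg_right hcard (by positivity)
    _ = C ^ 2 * (T : ℝ) ^ (21 / 16 : ℝ) := by
        have : (T : ℝ) ^ (21 / 16 : ℝ) = (T : ℝ) ^ (3 / 4 : ℝ) * (T : ℝ) ^ (9 / 16 : ℝ) := by
          rw [← Real.rpow_add_of_nonneg (by positivity) (by norm_num) (by norm_num)]
          norm_num
        rw [this]
        ring

theorem sum_union_le' {s t : Finset ℕ} (f : ℕ → ℝ) (hf : ∀ i, 0 ≤ f i) :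
    ∑ i ∈ s ∪ t, f i ≤ ∑ i ∈ s, f i + ∑ i ∈ t, f i := by
  rw [← sum_union_inter]
  have : 0 ≤ ∑ i ∈ s ∩ t, f i := sum_nonneg fun i _ => hf i
  linarith

theorem fam_r {φ : FD} (h : Fam φ) : (1 : ℝ) ≤ φ.r ∧ (φ.r : ℝ) ≤ 8 := by
  obtain ⟨ε, _, h | h | h | h⟩ := h <;> subst h
  · simp [F8]
  · simp [F4]; norm_num
  · simp [F1]
  · simp [F1]

/-- one family -/
theorem fam_bd (h2 : S_CB) (h3 : S_ZZ) (φ : FD) (hφ : Fam φ) :
    ∃ (C : ℝ) (E : ℕ), 0 < C ∧ ∀ X : ℝ, 4096 ≤ X → ∀ δ : ℝ, 16 / Real.log X ≤ δ → δ ≤ 1 / 16 →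
      ∑ d ∈ Fs φ X, |LLg φ d (1 / 2 + δ)| ^ (2 : ℝ) ≤ C * X * Real.log X ^ E := by
  classical
  obtain ⟨C1, E, hC1, hz⟩ := h3 φ hφ
  obtain ⟨C2, hC2, hc⟩ := h2 φ hφ
  refine ⟨192 * C1 + 4 * C2 ^ 2, E, by positivity, fun X hX δ hδ1 hδ2 => ?_⟩
  obtain ⟨hr1, hr8⟩ := fam_r hφ
  have hlogX : 1 ≤ Real.log X := by
    rw [Real.le_log_iff_exp_le (by linarith)]
    have := Real.exp_one_lt_d9
    linarith
  have hδ0 : 0 < δ := lt_of_lt_of_le (by positivity) hδ1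
  set Y : ℕ := ⌈X / φ.r⌉₊ - 1 with hY
  have hr0 : (0 : ℝ) < φ.r := by linarith
  have hXr : X / 8 ≤ X / φ.r := div_le_div_of_nonneg_left (by linarith) hr0 hr8
  have hXr' : X / φ.r ≤ X := div_le_self (by linarith) hr1
  have hceil1 : X / φ.r ≤ (⌈X / φ.r⌉₊ : ℝ) := Nat.le_ceil _
  have hceil2 : (⌈X / φ.r⌉₊ : ℝ) < X / φ.r + 1 := Nat.ceil_lt_add_one (by positivity)
  have hc1 : 1 ≤ ⌈X / φ.r⌉₊ := Nat.one_le_iff_ne_zero.2 (fun h => by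
    rw [h] at hceil1
    push_cast at hceil1
    linarith)
  have hYr : (Y : ℝ) = (⌈X / φ.r⌉₊ : ℝ) - 1 := by
    rw [hY]
    push_cast [hc1]
    ring
  have hYX : (Y : ℝ) ≤ X := by linarith
  have hYl : X / 16 ≤ (Y : ℝ) := by linarith
  have hY256 : (256 : ℝ) ≤ Y := by linarith
  have hY1 : (1 : ℝ) ≤ Y := by linarith
  have hY0 : (0 : ℝ) ≤ Y := by linarith
  -- the second range
  set T : ℕ := ⌊(Y : ℝ) ^ (3 / 4 : ℝ)⌋₊ + 1 with hT
  have hT1 : (Y : ℝ) ^ (3 / 4 : ℝ) < T := by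
    rw [hT]; push_cast; exact Nat.lt_floor_add_one _
  have hT2 : (T : ℝ) ≤ (Y : ℝ) ^ (3 / 4 : ℝ) + 1 := by
    rw [hT]; push_cast
    have := Nat.floor_le (Real.rpow_nonneg hY0 (3 / 4 : ℝ))
    linarith
  have h34 : (Y : ℝ) ^ (3 / 4 : ℝ) * 4 ≤ Y := by
    have e1 : (4 : ℝ) ≤ (Y : ℝ) ^ (1 / 4 : ℝ) := by
      calc (4 : ℝ) = (256 : ℝ) ^ (1 / 4 : ℝ) := by
            rw [show (256 : ℝ) = 4 ^ (4 : ℕ) by norm_num, ← Real.rpow_natCast,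
              ← Real.rpow_mul (by norm_num)]
            norm_num
        _ ≤ _ := Real.rpow_le_rpow (by norm_num) hY256 (by norm_num)
    calc (Y : ℝ) ^ (3 / 4 : ℝ) * 4 ≤ (Y : ℝ) ^ (3 / 4 : ℝ) * (Y : ℝ) ^ (1 / 4 : ℝ) :=
          mul_le_mul_of_nonneg_left e1 (by positivity)
      _ = Y := by
          rw [← Real.rpow_add (by linarith)]
          norm_num
  have h34' : (64 : ℝ) ≤ (Y : ℝ) ^ (3 / 4 : ℝ) := by
    calc (64 : ℝ) = (256 : ℝ) ^ (3 / 4 : ℝ) := by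
          rw [show (256 : ℝ) = 4 ^ (4 : ℕ) by norm_num, ← Real.rpow_natCast,
            ← Real.rpow_mul (by norm_num)]
          norm_num
      _ ≤ _ := Real.rpow_le_rpow (by norm_num) hY256 (by norm_num)
  have hTY : (T : ℝ) ≤ Y := by linarith
  have hTX : (T : ℝ) ≤ X := by linarith
  have hT64 : (64 : ℝ) < T := by linarith
  have hT2' : (T : ℝ) ≤ 2 * (Y : ℝ) ^ (3 / 4 : ℝ) := by linarith
  have hT3 : Y ^ 3 < T ^ 4 := by
    have : (Y : ℝ) ^ 3 < (T : ℝ) ^ 4 := by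
      calc (Y : ℝ) ^ 3 = ((Y : ℝ) ^ (3 / 4 : ℝ)) ^ 4 := by
            rw [← Real.rpow_natCast ((Y : ℝ) ^ (3 / 4 : ℝ)), ← Real.rpow_mul hY0,
              ← Real.rpow_natCast]
            norm_num
        _ < (T : ℝ) ^ 4 := pow_lt_pow_left₀ hT1 (by positivity) (by norm_num)
    exact_mod_cast this
  -- the logarithms
  have hlog16 : Real.log X ≤ 3 * Real.log (X / 16) := by
    have e1 : Real.log X = Real.log (X / 16) + Real.log 16 := by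
      rw [← Real.log_mul (by positivity) (by norm_num)]
      congr 1
      ring
    have e2 : Real.log 16 ≤ Real.log (X / 16) := Real.log_le_log (by norm_num) (by linarith)
    have e3 : 0 ≤ Real.log 16 := Real.log_nonneg (by norm_num)
    linarith
  have hlogY : Real.log X ≤ 3 * Real.log Y := by
    have := Real.log_le_log (by positivity) hYl
    linarith
  have hlogT : Real.log X ≤ 4 * Real.log T := by
    have e1 := Real.log_le_log (by positivity) hT1.le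
    rw [Real.log_rpow (by linarith)] at e1
    linarith
  have hlY0 : 0 < Real.log Y := by linarith
  have hlT0 : 0 < Real.log T := by linarith
  have hdY : 1 / Real.log Y ≤ δ := by
    refine le_trans ?_ hδ1
    rw [div_le_div_iff₀ hlY0 (by linarith)]
    linarith
  have hdT : 1 / Real.log T ≤ δ := by
    refine le_trans ?_ hδ1
    rw [div_le_div_iff₀ hlT0 (by linarith)]
    linarith
  -- decomposition
  set S : Finset ℕ := (Icc 1 T).filter (fun d => φ.A d ∧ Squarefree d ∧ d ^ 4 < T ^ 3) with hS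
  have hsub : Fs φ X ⊆ Om φ Y ∪ (Om φ T ∪ S) := by
    intro d hd
    unfold Fs at hd
    rw [mem_filter, mem_Icc] at hd
    obtain ⟨⟨d1, d2⟩, ha, hsq⟩ := hd
    rw [mem_union, mem_union]
    by_cases hd4 : Y ^ 3 ≤ d ^ 4
    · left
      unfold Om
      rw [mem_filter, mem_Icc]
      exact ⟨⟨d1, d2⟩, ha, hsq, hd4⟩
    · right
      push Not at hd4
      have hdT' : d ≤ T := (lt_of_pow_lt_pow_left₀ 4 (Nat.zero_le _) (hd4.trans hT3)).le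
      by_cases hd5 : T ^ 3 ≤ d ^ 4
      · left
        unfold Om
        rw [mem_filter, mem_Icc]
        exact ⟨⟨d1, hdT'⟩, ha, hsq, hd5⟩
      · right
        rw [hS, mem_filter, mem_Icc]
        exact ⟨⟨d1, hdT'⟩, ha, hsq, not_le.1 hd5⟩
  have hf : ∀ d : ℕ, |LLg φ d (1 / 2 + δ)| ^ (2 : ℝ) = LLg φ d (1 / 2 + δ) ^ 2 := by
    intro d
    rw [Real.rpow_two, sq_abs]
  simp only [hf]
  have b1 := om_bd φ hφ C1 E hC1 hz Y (by
    have : (3 : ℝ) ≤ Y := by linarith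
    exact_mod_cast this) δ hdY (by linarith)
  have b2 := om_bd φ hφ C1 E hC1 hz T (by
    have : (3 : ℝ) ≤ T := by linarith
    exact_mod_cast this) δ hdT (by linarith)
  have b3 := small_bd φ C2 hC2 hc T δ hδ0 (by linarith) S (by
    intro d hd
    rw [hS, mem_filter, mem_Icc] at hd
    exact ⟨hd.1.1, hd.2⟩)
  have b4 : (T : ℝ) ^ (21 / 16 : ℝ) ≤ 4 * X := by
    calc (T : ℝ) ^ (21 / 16 : ℝ) ≤ (2 * (Y : ℝ) ^ (3 / 4 : ℝ)) ^ (21 / 16 : ℝ) :=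
          Real.rpow_le_rpow (by positivity) hT2' (by norm_num)
      _ = (2 : ℝ) ^ (21 / 16 : ℝ) * (Y : ℝ) ^ (63 / 64 : ℝ) := by
          rw [Real.mul_rpow (by norm_num) (by positivity), ← Real.rpow_mul hY0]
          norm_num
      _ ≤ (2 : ℝ) ^ (2 : ℝ) * (Y : ℝ) ^ (1 : ℝ) :=
          mul_le_mul (Real.rpow_le_rpow_of_exponent_le (by norm_num) (by norm_num))
            (Real.rpow_le_rpow_of_exponent_le hY1 (by norm_num)) (by positivity) (by positivity)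
      _ = 4 * Y := by rw [Real.rpow_one]; norm_num
      _ ≤ 4 * X := by linarith
  have hlYX : Real.log Y ^ E ≤ Real.log X ^ E :=
    pow_le_pow_left₀ hlY0.le (Real.log_le_log (by linarith) hYX) E
  have hlTX : Real.log T ^ E ≤ Real.log X ^ E :=
    pow_le_pow_left₀ hlT0.le (Real.log_le_log (by linarith) hTX) E
  have hX0 : 0 ≤ X := by linarith
  have hlE : 1 ≤ Real.log X ^ E := one_le_pow₀ hlogX
  calc ∑ d ∈ Fs φ X, LLg φ d (1 / 2 + δ) ^ 2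
      ≤ ∑ d ∈ Om φ Y ∪ (Om φ T ∪ S), LLg φ d (1 / 2 + δ) ^ 2 :=
        sum_le_sum_of_subset_of_nonneg hsub fun _ _ _ => sq_nonneg _
    _ ≤ ∑ d ∈ Om φ Y, LLg φ d (1 / 2 + δ) ^ 2 + (∑ d ∈ Om φ T, LLg φ d (1 / 2 + δ) ^ 2 +
        ∑ d ∈ S, LLg φ d (1 / 2 + δ) ^ 2) := by
        refine (sum_union_le' _ fun _ => sq_nonneg _).trans ?_
        have := sum_union_le' (s := Om φ T) (t := S) (fun d => LLg φ d (1 / 2 + δ) ^ 2)
          fun _ => sq_nonneg _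
        linarith
    _ ≤ 96 * C1 * X * Real.log X ^ E + (96 * C1 * X * Real.log X ^ E +
        4 * C2 ^ 2 * X * Real.log X ^ E) := by
        have c1 : 96 * C1 * Y * Real.log Y ^ E ≤ 96 * C1 * X * Real.log X ^ E :=
          mul_le_mul (mul_le_mul_of_nonneg_left hYX (by positivity)) hlYX (by positivity)
            (by positivity)
        have c2 : 96 * C1 * T * Real.log T ^ E ≤ 96 * C1 * X * Real.log X ^ E :=
          mul_le_mul (mul_le_mul_of_nonneg_left hTX (by positivity)) hlTX (by positivity)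
            (by positivity)
        have c3 : C2 ^ 2 * (T : ℝ) ^ (21 / 16 : ℝ) ≤ 4 * C2 ^ 2 * X * Real.log X ^ E := by
          calc C2 ^ 2 * (T : ℝ) ^ (21 / 16 : ℝ) ≤ C2 ^ 2 * (4 * X) :=
                mul_le_mul_of_nonneg_left b4 (by positivity)
            _ = (4 * C2 ^ 2 * X) * 1 := by ring
            _ ≤ _ := mul_le_mul_of_nonneg_left hlE (by positivity)
        linarith
    _ = (192 * C1 + 4 * C2 ^ 2) * X * Real.log X ^ E := by ring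

theorem mono_bd {a C C' X l : ℝ} {E E' : ℕ} (hC : 0 ≤ C) (hX : 0 ≤ X) (hl : 1 ≤ l)
    (h : a ≤ C * X * l ^ E) (h1 : C ≤ C') (h2 : E ≤ E') : a ≤ C' * X * l ^ E' := by
  have h3 : l ^ E ≤ l ^ E' := pow_le_pow_right₀ hl h2
  have h4 : 0 ≤ l ^ E := by positivity
  calc a ≤ C * X * l ^ E := h
    _ ≤ C * X * l ^ E' := mul_le_mul_of_nonneg_left h3 (by positivity)
    _ ≤ C' * X * l ^ E' := mul_le_mul_of_nonneg_right
        (mul_le_mul_of_nonneg_right h1 hX) (by positivity)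

/-- one sign -/
theorem sgn_bd (h1 : S_TR) (h2 : S_CB) (h3 : S_ZZ) (ε : ℤ) (hε : ε = 1 ∨ ε = -1) :
    ∃ (C : ℝ) (E : ℕ), 0 < C ∧ ∀ X : ℝ, 4096 ≤ X → ∀ δ : ℝ, 16 / Real.log X ≤ δ → δ ≤ 1 / 16 →
      ∑ᶠ p ∈ SX ε X, ‖Lv δ p‖ ^ (2 : ℝ) ≤ C * X * Real.log X ^ E := by
  obtain ⟨C1, E1, c1, b1⟩ := fam_bd h2 h3 (F8 ε) ⟨ε, hε, Or.inl rfl⟩
  obtain ⟨C2, E2, c2, b2⟩ := fam_bd h2 h3 (F4 ε) ⟨ε, hε, Or.inr (Or.inl rfl)⟩
  obtain ⟨C3, E3, c3, b3⟩ := fam_bd h2 h3 (F1 ε 1) ⟨ε, hε, Or.inr (Or.inr (Or.inl rfl))⟩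
  obtain ⟨C4, E4, c4, b4⟩ := fam_bd h2 h3 (F1 ε 5) ⟨ε, hε, Or.inr (Or.inr (Or.inr rfl))⟩
  refine ⟨C1 + C2 + C3 + C4, E1 + E2 + E3 + E4, by positivity, fun X hX δ hδ1 hδ2 => ?_⟩
  have hlogX : 1 ≤ Real.log X := by
    rw [Real.le_log_iff_exp_le (by linarith)]
    have := Real.exp_one_lt_d9
    linarith
  have hδ0 : 0 < δ := lt_of_lt_of_le (by positivity) hδ1
  have hX0 : 0 ≤ X := by linarith
  have e := (h1 ε hε X (by linarith)).2 δ hδ0 (by linarith) (fun x => x ^ (2 : ℝ))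
  have a1 := mono_bd (E' := E1 + E2 + E3 + E4) c1.le hX0 hlogX (b1 X hX δ hδ1 hδ2) le_rfl (by omega)
  have a2 := mono_bd (E' := E1 + E2 + E3 + E4) c2.le hX0 hlogX (b2 X hX δ hδ1 hδ2) le_rfl (by omega)
  have a3 := mono_bd (E' := E1 + E2 + E3 + E4) c3.le hX0 hlogX (b3 X hX δ hδ1 hδ2) le_rfl (by omega)
  have a4 := mono_bd (E' := E1 + E2 + E3 + E4) c4.le hX0 hlogX (b4 X hX δ hδ1 hδ2) le_rfl (by omega)
  have e' : ∑ᶠ p ∈ SX ε X, ‖Lv δ p‖ ^ (2 : ℝ) = _ := e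
  rw [e']
  have : (C1 + C2 + C3 + C4) * X * Real.log X ^ (E1 + E2 + E3 + E4) =
    C1 * X * Real.log X ^ (E1 + E2 + E3 + E4) + C2 * X * Real.log X ^ (E1 + E2 + E3 + E4) +
    C3 * X * Real.log X ^ (E1 + E2 + E3 + E4) + C4 * X * Real.log X ^ (E1 + E2 + E3 + E4) := by
    ring
  rw [this]
  exact add_le_add (add_le_add (add_le_add a1 a2) a3) a4

/-- **SM**: second moment, upper bound -/
theorem SM (h1 : S_TR) (h2 : S_CB) (h3 : S_ZZ) : S_SM := by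
  obtain ⟨C1, E1, c1, b1⟩ := sgn_bd h1 h2 h3 1 (Or.inl rfl)
  obtain ⟨C2, E2, c2, b2⟩ := sgn_bd h1 h2 h3 (-1) (Or.inr rfl)
  refine ⟨C1 + C2, 4096, E1 + E2, by positivity, fun X hX ε hε δ hδ1 hδ2 => ?_⟩
  have hlogX : 1 ≤ Real.log X := by
    rw [Real.le_log_iff_exp_le (by linarith)]
    have := Real.exp_one_lt_d9
    linarith
  have hX0 : 0 ≤ X := by linarith
  rcases hε with rfl | rfl
  · exact mono_bd c1.le hX0 hlogX (b1 X hX δ hδ1 hδ2) (by linarith) (by omega)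
  · exact mono_bd c2.le hX0 hlogX (b2 X hX δ hδ1 hδ2) (by linarith) (by omega)

end

end Pool.Agent.Y813.TQ
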